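import Mathlib

set_option autoImplicit false
set_option linter.all false

/-! # The 2-rank of a finite abelian group; the number of the primes of a number field over an integer -/

open NumberField IsDedekindDomain

namespace Pool.Agent.N958.TR2

/-- `(ℤ/2)^R` embeds in `G` iff `G` has at least `2 ^ R` elements of order dividing two. -/
theorem embeds_iff (G : Type) [CommGroup G] [Finite G] (R : ℕ) :
    (∃ f : Multiplicative (Fin R → ZMod 2) →* G, Function.Injective f) ↔
      2 ^ R ≤ Nat.card {g : G // g ^ 2 = 1} := by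
  constructor
  · rintro ⟨f, hf⟩
    have h1 : ∀ x : Multiplicative (Fin R → ZMod 2), f x ^ 2 = 1 := by
      intro x
      rw [← map_pow]
      have : x ^ 2 = 1 := by
        apply Multiplicative.toAdd.injective
        rw [toAdd_pow, toAdd_one]
        funext i
        have h2 : ∀ y : ZMod 2, 2 • y = 0 := by decide
        exact h2 _
      rw [this, map_one]
    have h3 : Function.Injective (fun x : Multiplicative (Fin R → ZMod 2) =>
        (⟨f x, h1 x⟩ : {g : G // g ^ 2 = 1})) := by
      intro x y hxy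
      exact hf (congrArg Subtype.val hxy)
    have h4 := Nat.card_le_card_of_injective _ h3
    have h5 : Nat.card (Multiplicative (Fin R → ZMod 2)) = 2 ^ R := by
      have : Nat.card (Multiplicative (Fin R → ZMod 2)) = Nat.card (Fin R → ZMod 2) := rfl
      rw [this, Nat.card_eq_fintype_card, Fintype.card_fun, ZMod.card, Fintype.card_fin]
    rwa [h5] at h4
  · intro h
    let T : Subgroup G := (powMonoidHom 2 : G →* G).ker
    have hT : Nat.card T = Nat.card {g : G // g ^ 2 = 1} := rfl
    letI : Module (ZMod 2) (Additive T) := AddCommGroup.zmodModule (n := 2) (by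
      intro x
      have h1 : (Additive.toMul x : T) ^ 2 = 1 := by
        apply Subtype.ext
        exact (Additive.toMul x).2
      exact h1)
    have hfin : Finite (Additive T) := inferInstanceAs (Finite T)
    haveI : Module.Finite (ZMod 2) (Additive T) := Module.Finite.of_finite
    have hcard : Nat.card (Additive T) = 2 ^ Module.finrank (ZMod 2) (Additive T) := by
      rw [Module.natCard_eq_pow_finrank (K := ZMod 2)]
      rw [Nat.card_eq_fintype_card, ZMod.card]
    have hr : R ≤ Module.finrank (ZMod 2) (Additive T) := by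
      have h2 : 2 ^ R ≤ 2 ^ Module.finrank (ZMod 2) (Additive T) := by
        rw [← hcard]
        exact h
      exact (Nat.pow_le_pow_iff_right (by norm_num)).1 h2
    have hrk : Module.rank (ZMod 2) (Fin R → ZMod 2) ≤ Module.rank (ZMod 2) (Additive T) := by
      rw [rank_fin_fun, ← Module.finrank_eq_rank]
      exact_mod_cast hr
    obtain ⟨g, hg⟩ := (rank_le_iff_exists_linearMap (R := ZMod 2)).1 hrk
    let φ : Multiplicative (Fin R → ZMod 2) →* T := AddMonoidHom.toMultiplicativeLeft g.toAddMonoidHom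
    refine ⟨T.subtype.comp φ, ?_⟩
    intro x y hxy
    have h5 : φ x = φ y := Subtype.ext hxy
    exact Multiplicative.toAdd.injective (hg h5)

/-- a prime of `K` that contains the prime number `p` lies over `p` -/
theorem over_of_mem {K : Type} [Field K] [NumberField K] {p : ℕ} (hp : p.Prime)
    (v : HeightOneSpectrum (𝓞 K)) (hv : (p : 𝓞 K) ∈ v.asIdeal) :
    v.asIdeal.LiesOver (Ideal.span {(p : ℤ)}) := by
  have hpi : Prime (p : ℤ) := Nat.prime_iff_prime_int.1 hp
  haveI : (Ideal.span {(p : ℤ)}).IsMaximal :=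
    PrincipalIdealRing.isMaximal_of_irreducible hpi.irreducible
  refine ⟨?_⟩
  have h1 : Ideal.span {(p : ℤ)} ≤ v.asIdeal.under ℤ := by
    rw [Ideal.span_singleton_le_iff_mem, Ideal.under_def, Ideal.mem_comap]
    simpa using hv
  have h2 : v.asIdeal.under ℤ ≠ ⊤ := by
    rw [Ne, Ideal.eq_top_iff_one, Ideal.under_def, Ideal.mem_comap, map_one]
    exact fun h => v.isPrime.ne_top ((Ideal.eq_top_iff_one _).2 h)
  exact (Ideal.IsMaximal.eq_of_le inferInstance h2 h1)

theorem list_mem {K : Type} [Field K] [NumberField K] (v : HeightOneSpectrum (𝓞 K)) (l : List ℕ)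
    (h : ((l.prod : ℕ) : 𝓞 K) ∈ v.asIdeal) : ∃ p ∈ l, (p : 𝓞 K) ∈ v.asIdeal := by
  induction l with
  | nil =>
    exfalso
    apply v.isPrime.ne_top
    rw [Ideal.eq_top_iff_one]
    simpa using h
  | cons a l ih =>
    rw [List.prod_cons, Nat.cast_mul] at h
    rcases v.isPrime.mem_or_mem h with h1 | h1
    · exact ⟨a, List.mem_cons_self, h1⟩
    · obtain ⟨p, hp, hpv⟩ := ih h1
      exact ⟨p, List.mem_cons_of_mem _ hp, hpv⟩

/-- a prime of `K` that contains a nonzero rational integer `x` contains a prime factor of `x` -/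
theorem exists_prime_of_mem {K : Type} [Field K] [NumberField K] (v : HeightOneSpectrum (𝓞 K))
    {x : ℤ} (hx : x ≠ 0) (hv : (x : 𝓞 K) ∈ v.asIdeal) :
    ∃ p : ℕ, p.Prime ∧ (p : ℤ) ∣ x ∧ (p : 𝓞 K) ∈ v.asIdeal := by
  have h0 : ((x.natAbs : ℕ) : 𝓞 K) ∈ v.asIdeal := by
    have e0 : ((x.natAbs : ℕ) : 𝓞 K) = (((x.natAbs : ℕ) : ℤ) : 𝓞 K) := (Int.cast_natCast _).symm
    rcases Int.natAbs_eq x with h | h
    · rw [e0, ← h]
      exact hv
    · have e1 : ((x.natAbs : ℕ) : ℤ) = -x := by omega
      rw [e0, e1, Int.cast_neg]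
      exact neg_mem hv
  have hn : x.natAbs ≠ 0 := Int.natAbs_ne_zero.2 hx
  rw [← Nat.prod_primeFactorsList hn] at h0
  obtain ⟨p, hp, hpv⟩ := list_mem v _ h0
  exact ⟨p, Nat.prime_of_mem_primeFactorsList hp,
    Int.natCast_dvd.2 (Nat.dvd_of_mem_primeFactorsList hp), hpv⟩

/-- A nonzero rational integer `x` is divisible by at most `[K : ℚ] ω(x)` primes of `K`. -/
theorem omega_le (K : Type) [Field K] [NumberField K] (x : ℤ) (hx : x ≠ 0) :
    Nat.card {v : HeightOneSpectrum (𝓞 K) | (x : 𝓞 K) ∈ v.asIdeal} ≤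
      Module.finrank ℚ K * x.natAbs.primeFactors.card := by
  classical
  -- the primes over `p`
  have key : ∀ p : ℕ, p.Prime → ∃ s : Finset (HeightOneSpectrum (𝓞 K)),
      s.card ≤ Module.finrank ℚ K ∧ ∀ v : HeightOneSpectrum (𝓞 K), (p : 𝓞 K) ∈ v.asIdeal → v ∈ s := by
    intro p hp
    have hpi : Prime (p : ℤ) := Nat.prime_iff_prime_int.1 hp
    have hp0 : Ideal.span {(p : ℤ)} ≠ ⊥ := by
      rw [Ne, Ideal.span_singleton_eq_bot]
      exact hpi.ne_zero
    haveI : (Ideal.span {(p : ℤ)}).IsMaximal :=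
      PrincipalIdealRing.isMaximal_of_irreducible hpi.irreducible
    have hc := Ideal.card_primesOverFinset_le_finrank (𝓞 K) ℚ K hp0
    have hfin : Set.Finite {v : HeightOneSpectrum (𝓞 K) | (p : 𝓞 K) ∈ v.asIdeal} := by
      have h1 : Set.InjOn (fun v : HeightOneSpectrum (𝓞 K) => v.asIdeal)
          {v : HeightOneSpectrum (𝓞 K) | (p : 𝓞 K) ∈ v.asIdeal} :=
        fun v _ w _ hvw => HeightOneSpectrum.ext hvw
      refine Set.Finite.of_finite_image (Set.Finite.subset
        (IsDedekindDomain.primesOverFinset (Ideal.span {(p : ℤ)}) (𝓞 K)).finite_toSet ?_) h1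
      rintro _ ⟨v, hv, rfl⟩
      rw [Finset.mem_coe, IsDedekindDomain.mem_primesOverFinset_iff hp0]
      exact ⟨v.isPrime, over_of_mem hp v hv⟩
    refine ⟨hfin.toFinset, ?_, fun v hv => by rw [Set.Finite.mem_toFinset]; exact hv⟩
    refine le_trans ?_ hc
    refine Finset.card_le_card_of_injOn (fun v => v.asIdeal) ?_ (fun v _ w _ hvw => HeightOneSpectrum.ext hvw)
    intro v hv
    rw [Finset.mem_coe, Set.Finite.mem_toFinset] at hv
    rw [Finset.mem_coe, IsDedekindDomain.mem_primesOverFinset_iff hp0]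
    exact ⟨v.isPrime, over_of_mem hp v hv⟩
  choose! s hs1 hs2 using key
  have hsub : {v : HeightOneSpectrum (𝓞 K) | (x : 𝓞 K) ∈ v.asIdeal} ⊆
      ((x.natAbs.primeFactors.biUnion s : Finset (HeightOneSpectrum (𝓞 K))) : Set _) := by
    intro v hv
    obtain ⟨p, hp, hpx, hpv⟩ := exists_prime_of_mem v hx hv
    rw [Finset.mem_coe, Finset.mem_biUnion]
    exact ⟨p, Nat.mem_primeFactors.2 ⟨hp, Int.natCast_dvd.1 hpx, Int.natAbs_ne_zero.2 hx⟩, hs2 p hp v hpv⟩
  calc Nat.card {v : HeightOneSpectrum (𝓞 K) | (x : 𝓞 K) ∈ v.asIdeal}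
      ≤ Nat.card ((x.natAbs.primeFactors.biUnion s : Finset (HeightOneSpectrum (𝓞 K))) : Set _) :=
        Nat.card_mono (Finset.finite_toSet _) hsub
    _ = (x.natAbs.primeFactors.biUnion s).card := by
        rw [Nat.card_coe_set_eq, Set.ncard_coe_finset]
    _ ≤ x.natAbs.primeFactors.card * Module.finrank ℚ K :=
        Finset.card_biUnion_le_card_mul _ _ _ fun p hp => hs1 p (Nat.prime_of_mem_primeFactors hp)
    _ = _ := Nat.mul_comm _ _

end Pool.Agent.N958.TR2
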