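import Pool.Agent.N810.MU.Cyc
import Pool.Agent.N958.TR2.Prm

set_option autoImplicit false
set_option linter.all false

/-! # The number of the primes over a rational integer in the cyclotomic `ℤ_p`-extension of a number
field `F ⊂ ℂ` is bounded -/

open NumberField IsDedekindDomain

namespace Pool.Agent.N958.TR2

/-- the primes of `K` that contain `x` -/
def above (K : Type) [Field K] [NumberField K] (x : ℤ) : Set (HeightOneSpectrum (𝓞 K)) :=
  {v | (x : 𝓞 K) ∈ v.asIdeal}

theorem above_finite (K : Type) [Field K] [NumberField K] {x : ℤ} (hx : x ≠ 0) :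
    (above K x).Finite := by
  have h0 : Ideal.span {(x : 𝓞 K)} ≠ ⊥ := by
    rw [Ne, Ideal.span_singleton_eq_bot]
    exact_mod_cast hx
  refine (Ideal.finite_factors h0).subset ?_
  intro v hv
  show v.asIdeal ∣ _
  rw [Ideal.dvd_iff_le, Ideal.span_singleton_le_iff_mem]
  exact hv

section

variable (K M : Type) [Field K] [NumberField K] [Field M] [NumberField M] [Algebra K M]

/-- the prime of `K` under a prime of `M` -/
noncomputable def down (w : HeightOneSpectrum (𝓞 M)) : HeightOneSpectrum (𝓞 K) where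
  asIdeal := w.asIdeal.under (𝓞 K)
  isPrime := inferInstance
  ne_bot := Ideal.under_ne_bot (𝓞 K) w.ne_bot

theorem down_mem {x : ℤ} (w : HeightOneSpectrum (𝓞 M)) :
    down K M w ∈ above K x ↔ w ∈ above M x := by
  show (x : 𝓞 K) ∈ w.asIdeal.under (𝓞 K) ↔ (x : 𝓞 M) ∈ w.asIdeal
  rw [Ideal.under_def, Ideal.mem_comap, map_intCast]

theorem down_surjective : Function.Surjective (down K M) := by
  intro v
  haveI := v.isMaximal
  obtain ⟨P, hP, hPv⟩ := Ideal.exists_maximal_ideal_liesOver_of_isIntegral (S := 𝓞 M) v.asIdeal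
  haveI := hPv
  refine ⟨⟨P, hP.isPrime, Ideal.ne_bot_of_liesOver_of_ne_bot v.ne_bot P⟩, ?_⟩
  apply HeightOneSpectrum.ext
  show P.under (𝓞 K) = v.asIdeal
  exact hPv.over.symm

theorem card_up {x : ℤ} (hx : x ≠ 0) : Nat.card (above K x) ≤ Nat.card (above M x) := by
  haveI : Finite (above M x) := above_finite M hx
  refine Nat.card_le_card_of_surjective (fun w : above M x => (⟨down K M w.1,
    (down_mem K M w.1).2 w.2⟩ : above K x)) ?_
  rintro ⟨v, hv⟩
  obtain ⟨w, rfl⟩ := down_surjective K M v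
  exact ⟨⟨w, (down_mem K M w).1 hv⟩, rfl⟩

theorem card_fibre (v : HeightOneSpectrum (𝓞 K)) :
    Set.Finite {w : HeightOneSpectrum (𝓞 M) | down K M w = v} ∧
      Nat.card {w : HeightOneSpectrum (𝓞 M) | down K M w = v} ≤ Module.finrank K M := by
  classical
  haveI := v.isMaximal
  haveI : NoZeroSMulDivisors (𝓞 K) (𝓞 M) := ⟨fun {c x} h => by
    rw [Algebra.smul_def] at h
    rcases mul_eq_zero.1 h with h | h
    · left
      exact (FaithfulSMul.algebraMap_injective (𝓞 K) (𝓞 M)) (by rw [h, map_zero])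
    · right
      exact h⟩
  have hc := Ideal.card_primesOverFinset_le_finrank (𝓞 M) K M v.ne_bot
  have hinj : Set.InjOn (fun w : HeightOneSpectrum (𝓞 M) => w.asIdeal)
      {w : HeightOneSpectrum (𝓞 M) | down K M w = v} :=
    fun w _ w' _ h => HeightOneSpectrum.ext h
  have hmem : ∀ w : HeightOneSpectrum (𝓞 M), down K M w = v →
      w.asIdeal ∈ IsDedekindDomain.primesOverFinset v.asIdeal (𝓞 M) := by
    intro w hw
    rw [IsDedekindDomain.mem_primesOverFinset_iff v.ne_bot]
    refine ⟨w.isPrime, ⟨?_⟩⟩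
    rw [← hw]
    rfl
  have hfin : Set.Finite {w : HeightOneSpectrum (𝓞 M) | down K M w = v} := by
    refine Set.Finite.of_finite_image (Set.Finite.subset
      (IsDedekindDomain.primesOverFinset v.asIdeal (𝓞 M)).finite_toSet ?_) hinj
    rintro _ ⟨w, hw, rfl⟩
    exact hmem w hw
  refine ⟨hfin, le_trans ?_ hc⟩
  rw [Nat.card_coe_set_eq, Set.ncard_eq_toFinset_card _ hfin]
  refine Finset.card_le_card_of_injOn (fun w => w.asIdeal) ?_ (fun w _ w' _ h => HeightOneSpectrum.ext h)
  intro w hw
  rw [Finset.mem_coe, Set.Finite.mem_toFinset] at hw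
  exact hmem w hw

theorem card_down {x : ℤ} (hx : x ≠ 0) :
    Nat.card (above M x) ≤ Module.finrank K M * Nat.card (above K x) := by
  classical
  have hfK := above_finite K hx
  have hfM := above_finite M hx
  rw [Nat.card_coe_set_eq, Nat.card_coe_set_eq, Set.ncard_eq_toFinset_card _ hfK,
    Set.ncard_eq_toFinset_card _ hfM]
  refine Finset.card_le_mul_card_image_of_maps_to (f := down K M) ?_ _ ?_
  · intro w hw
    rw [Set.Finite.mem_toFinset] at hw ⊢
    exact (down_mem K M w).2 hw
  · intro v hv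
    refine le_trans ?_ (card_fibre K M v).2
    rw [Nat.card_coe_set_eq, Set.ncard_eq_toFinset_card _ (card_fibre K M v).1]
    refine Finset.card_le_card ?_
    intro w hw
    rw [Finset.mem_filter] at hw
    rw [Set.Finite.mem_toFinset]
    exact hw.2

end

/-- the primes over `x` and over the prime factors of `x` -/
theorem above_le (K : Type) [Field K] [NumberField K] {x : ℤ} (hx : x ≠ 0) (T : ℕ → ℕ)
    (hT : ∀ l : ℕ, l.Prime → Nat.card (above K l) ≤ T l) :
    Nat.card (above K x) ≤ ∑ l ∈ x.natAbs.primeFactors, T l := by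
  classical
  have hf : ∀ l : ℕ, l.Prime → (above K (l : ℤ)).Finite := fun l hl =>
    above_finite K (by exact_mod_cast hl.ne_zero)
  have hsub : above K x ⊆ ⋃ l ∈ x.natAbs.primeFactors, above K (l : ℤ) := by
    intro v hv
    obtain ⟨p, hp, hpx, hpv⟩ := exists_prime_of_mem v hx hv
    rw [Set.mem_iUnion₂]
    refine ⟨p, Nat.mem_primeFactors.2 ⟨hp, Int.natCast_dvd.1 hpx, Int.natAbs_ne_zero.2 hx⟩, ?_⟩
    show ((p : ℤ) : 𝓞 K) ∈ v.asIdeal
    exact_mod_cast hpv
  have hfin : (⋃ l ∈ x.natAbs.primeFactors, above K (l : ℤ)).Finite := by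
    refine Set.Finite.biUnion (Finset.finite_toSet _) ?_
    intro l hl
    exact hf l (Nat.prime_of_mem_primeFactors hl)
  rw [Nat.card_coe_set_eq]
  refine (Set.ncard_le_ncard hsub hfin).trans ?_
  refine (Finset.set_ncard_biUnion_le _ _).trans ?_
  refine Finset.sum_le_sum fun l hl => ?_
  have := hT l (Nat.prime_of_mem_primeFactors hl)
  rwa [Nat.card_coe_set_eq] at this

/-- the number of the primes over `l` in the fields of `p`-power roots of unity -/
theorem above_cyc {p l : ℕ} (hp : p.Prime) (hl : l.Prime) :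
    ∃ t : ℕ, ∀ (k : ℕ) (K : Type) [Field K] [NumberField K] [IsCyclotomicExtension {p ^ k} ℚ K],
      Nat.card (above K l) ≤ t := by
  obtain ⟨t, ht⟩ := Pool.Agent.N810.MU.primes_bound hp hl
  refine ⟨t, fun k K _ _ _ => ?_⟩
  have h1 := ht k K
  have hlm : (Ideal.span {(l : ℤ)}).IsMaximal :=
    PrincipalIdealRing.isMaximal_of_irreducible (Nat.prime_iff_prime_int.1 hl).irreducible
  have hfin : (Ideal.primesOver (Ideal.span {(l : ℤ)}) (𝓞 K)).Finite :=
    IsDedekindDomain.primesOver_finite _ _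
  refine le_trans ?_ h1
  rw [Nat.card_coe_set_eq]
  refine Set.ncard_le_ncard_of_injOn (fun v => v.asIdeal) ?_
    (fun v _ w _ h => HeightOneSpectrum.ext h) hfin
  intro v hv
  refine ⟨v.isPrime, over_of_mem hl v ?_⟩
  have : ((l : ℤ) : 𝓞 K) ∈ v.asIdeal := hv
  exact_mod_cast this

end Pool.Agent.N958.TR2
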