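import Pool.Agent.N922.Q6
import Pool.Agent.N958.TR2.Tow

set_option autoImplicit false
set_option linter.all false

/-! # The bounds of helper922 for rational integers `a`, `c`, with the numbers of the primes over
`a² - 64c` and `c` -/

open NumberField IsDedekindDomain

namespace Pool.Agent.N958.TR2

theorem bnd (K : Type) [Field K] [NumberField K] (a c : ℤ) (ha : a % 4 = 1) (hc : c ≠ 0)
    (hsign : c < 0 ∨ (0 < a ∧ 64 * c < a ^ 2)) (W : WeierstrassCurve K)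
    (hW : W = ⟨0, -2 * (a : K), 0, (a : K) ^ 2 - 64 * (c : K), 0⟩) :
    Finite {x : Pool.Agent.TH841.NF.D.Sha W // 2 • x = 0} ∧
    2 ^ (InfinitePlace.nrRealPlaces K + InfinitePlace.nrComplexPlaces K) *
        Nat.card {g : ClassGroup (𝓞 K) // g ^ 2 = 1} ≤
      2 ^ (Pool.Agent.TH841.NF.D.rk W + 2 + Nat.card (above K (a ^ 2 - 64 * c))) *
        Nat.card {x : Pool.Agent.TH841.NF.D.Sha W // 2 • x = 0} ∧
    2 ^ (Pool.Agent.TH841.NF.D.rk W + 2) * Nat.card {x : Pool.Agent.TH841.NF.D.Sha W // 2 • x = 0} ≤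
      2 ^ (InfinitePlace.nrRealPlaces K + InfinitePlace.nrComplexPlaces K +
        Nat.card (above K (a ^ 2 - 64 * c)) + Nat.card (above K c)) *
        Nat.card {g : ClassGroup (𝓞 K) // g ^ 2 = 1} ^ 2 := by
  have hDpos : 0 < a ^ 2 - 64 * c := by
    rcases hsign with h | ⟨h3, h4⟩
    · nlinarith [sq_nonneg a]
    · linarith
  obtain ⟨a', ha'⟩ : ∃ a' : 𝓞 K, a' = (a : 𝓞 K) := ⟨_, rfl⟩
  obtain ⟨c', hc'⟩ : ∃ c' : 𝓞 K, c' = (c : 𝓞 K) := ⟨_, rfl⟩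
  have haK : (a' : K) = (a : K) := by rw [ha']; push_cast; rfl
  have hcK : (c' : K) = (c : K) := by rw [hc']; push_cast; rfl
  have hDK : a' ^ 2 - 64 * c' = ((a ^ 2 - 64 * c : ℤ) : 𝓞 K) := by
    rw [ha', hc']; push_cast; ring
  have hD0 : a' ^ 2 - 64 * c' ≠ 0 := by
    rw [hDK]
    exact_mod_cast hDpos.ne'
  have hc0 : c' ≠ 0 := by
    rw [hc']
    exact_mod_cast hc
  obtain ⟨k, hk⟩ : ∃ k : ℤ, a = 1 + 4 * k := ⟨(a - 1) / 4, by omega⟩
  have hsk : a' = (1 : 𝓞 K) ^ 2 + 4 * (k : 𝓞 K) := by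
    rw [ha', hk]; push_cast; ring
  have ha2 : ∀ v : HeightOneSpectrum (𝓞 K), (2 : 𝓞 K) ∈ v.asIdeal → a' ∉ v.asIdeal := by
    intro v h2 h3
    apply v.isPrime.ne_top
    rw [Ideal.eq_top_iff_one]
    have e : (1 : 𝓞 K) = a' - 2 * (2 * (k : 𝓞 K)) := by rw [hsk]; ring
    rw [e]
    exact sub_mem h3 (v.asIdeal.mul_mem_right _ h2)
  have hI : ∀ φ : K →+* ℝ, φ c' < 0 ∨ (0 < φ a' ∧ 64 * φ c' < φ a' ^ 2) := by
    intro φ
    have e1 : φ (c' : K) = (c : ℝ) := by rw [hcK, map_intCast]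
    have e2 : φ (a' : K) = (a : ℝ) := by rw [haK, map_intCast]
    rw [e1, e2]
    rcases hsign with h1 | ⟨h1, h2⟩
    · left
      exact_mod_cast h1
    · right
      exact ⟨by exact_mod_cast h1, by exact_mod_cast h2⟩
  obtain ⟨f1, f2, l1, -, -, hu⟩ := @Pool.Agent.N922.Q.mainK K _ _ DivisionRing.toRatAlgebra
    inferInstance a' c' 1 k hsk hc0 hD0 ha2 _ _ rfl rfl
  obtain ⟨u1, u2⟩ := hu hI
  have hr : Pool.Agent.N922.Q.rI a' c' + InfinitePlace.nrComplexPlaces K =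
      InfinitePlace.nrRealPlaces K + InfinitePlace.nrComplexPlaces K := by
    rw [← Pool.Agent.R432.CX.card_emb]
    congr 1
    exact Nat.card_congr (Equiv.subtypeUnivEquiv hI)
  have hE : Pool.Agent.N922.Q.cv a' c' = W := by
    rw [hW]
    show (⟨0, -2 * (a' : K), 0, (a' : K) ^ 2 - 64 * (c' : K), 0⟩ : WeierstrassCurve K) = _
    rw [haK, hcK]
  rw [hDK, hr, hE] at l1
  rw [hDK, hr, hE] at u1
  rw [hc'] at u1
  rw [hE] at f1
  exact ⟨f1, l1, u1⟩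

end Pool.Agent.N958.TR2
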