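import Mathlib

set_option autoImplicit false
set_option linter.all false

/-! # Elements of order two in a finite abelian group and in its quotient by a subgroup with few
generators -/

namespace Pool.Agent.N958.TR2

section

variable {A : Type*} [CommGroup A]

theorem relIndex_le_two (Q : Subgroup A) (hQ : ∀ x : A, x ^ 2 ∈ Q) (a : A) :
    Q.relIndex (Subgroup.zpowers a) ≤ 2 := by
  have h2 : Nat.card (Fin 2) = 2 := by simp
  rw [← h2]
  show Nat.card (Subgroup.zpowers a ⧸ Q.subgroupOf (Subgroup.zpowers a)) ≤ Nat.card (Fin 2)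
  refine Nat.card_le_card_of_surjective (fun i : Fin 2 =>
    (QuotientGroup.mk (⟨a ^ (i : ℕ), ⟨(i : ℤ), by simp⟩⟩ : Subgroup.zpowers a) :
      Subgroup.zpowers a ⧸ Q.subgroupOf (Subgroup.zpowers a))) ?_
  intro y
  obtain ⟨⟨x, n, hn⟩, rfl⟩ := QuotientGroup.mk_surjective y
  have hn' : a ^ n = x := hn
  have hm : n % 2 = 0 ∨ n % 2 = 1 := Int.emod_two_eq_zero_or_one n
  rcases hm with h | h
  · refine ⟨0, ?_⟩
    rw [QuotientGroup.eq]
    show (a ^ ((0 : Fin 2) : ℕ))⁻¹ * x ∈ Q
    have e : (a ^ ((0 : Fin 2) : ℕ))⁻¹ * x = (a ^ (n / 2)) ^ 2 := by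
      rw [← hn', ← zpow_natCast (a ^ (n / 2)) 2, ← zpow_mul]
      simp only [Fin.isValue, Fin.val_zero, pow_zero, inv_one, one_mul]
      congr 1
      push_cast
      omega
    rw [e]
    exact hQ _
  · refine ⟨1, ?_⟩
    rw [QuotientGroup.eq]
    show (a ^ ((1 : Fin 2) : ℕ))⁻¹ * x ∈ Q
    have e : (a ^ ((1 : Fin 2) : ℕ))⁻¹ * x = (a ^ (n / 2)) ^ 2 := by
      rw [← hn', ← zpow_natCast (a ^ (n / 2)) 2, ← zpow_mul]
      simp only [Fin.isValue, Fin.val_one, pow_one]
      rw [← zpow_neg_one, ← zpow_add]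
      congr 1
      push_cast
      omega
    rw [e]
    exact hQ _

theorem index_step (Q : Subgroup A) (hQ : ∀ x : A, x ^ 2 ∈ Q) (a : A) :
    Q.index ≤ 2 * (Q ⊔ Subgroup.zpowers a).index := by
  have h1 := Subgroup.relIndex_mul_index (le_sup_left : Q ≤ Q ⊔ Subgroup.zpowers a)
  rw [← h1]
  refine Nat.mul_le_mul_right _ ?_
  rw [sup_comm, Subgroup.relIndex_sup_right]
  exact relIndex_le_two Q hQ a

theorem index_closure (S : Finset A) : ∀ (Q : Subgroup A), (∀ x : A, x ^ 2 ∈ Q) →
    Q.index ≤ 2 ^ S.card * (Q ⊔ Subgroup.closure (S : Set A)).index := by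
  classical
  induction S using Finset.induction_on with
  | empty =>
    intro Q hQ
    simp
  | insert a S ha ih =>
    intro Q hQ
    have h1 := index_step Q hQ a
    have h2 := ih (Q ⊔ Subgroup.zpowers a) (fun x => Subgroup.mem_sup_left (hQ x))
    have e : Q ⊔ Subgroup.closure ((insert a S : Finset A) : Set A) =
        Q ⊔ Subgroup.zpowers a ⊔ Subgroup.closure (S : Set A) := by
      rw [Finset.coe_insert, Set.insert_eq, Subgroup.closure_union, ← Subgroup.zpowers_eq_closure,
        sup_assoc]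
    rw [e, Finset.card_insert_of_notMem ha]
    calc Q.index ≤ 2 * (Q ⊔ Subgroup.zpowers a).index := h1
      _ ≤ 2 * (2 ^ S.card * (Q ⊔ Subgroup.zpowers a ⊔ Subgroup.closure (S : Set A)).index) :=
          Nat.mul_le_mul_left _ h2
      _ = _ := by ring

/-- the elements of order dividing two and the index of the squares -/
theorem card_two_eq [Finite A] :
    Nat.card {g : A // g ^ 2 = 1} = (powMonoidHom 2 : A →* A).range.index := by
  have h1 := Subgroup.index_ker (powMonoidHom 2 : A →* A)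
  have h2 := Subgroup.card_mul_index (powMonoidHom 2 : A →* A).ker
  have h3 := Subgroup.card_mul_index (powMonoidHom 2 : A →* A).range
  have h4 : Nat.card {g : A // g ^ 2 = 1} = Nat.card (powMonoidHom 2 : A →* A).ker := rfl
  have h5 : 0 < Nat.card (powMonoidHom 2 : A →* A).range := Nat.card_pos
  rw [h4]
  rw [h1] at h2
  have h6 : Nat.card (powMonoidHom 2 : A →* A).range *
      Nat.card (powMonoidHom 2 : A →* A).ker = Nat.card (powMonoidHom 2 : A →* A).range *
      (powMonoidHom 2 : A →* A).range.index := by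
    rw [h3, mul_comm]
    exact h2
  exact Nat.eq_of_mul_eq_mul_left h5 h6

theorem card_quot [Finite A] (H : Subgroup A) :
    Nat.card {g : A ⧸ H // g ^ 2 = 1} = ((powMonoidHom 2 : A →* A).range ⊔ H).index := by
  have hs := QuotientGroup.mk'_surjective H
  rw [card_two_eq (A := A ⧸ H)]
  have h1 := Subgroup.index_comap_of_surjective (powMonoidHom 2 : A ⧸ H →* A ⧸ H).range hs
  rw [← h1]
  congr 1
  ext x
  constructor
  · intro hx
    obtain ⟨y, hy⟩ := Subgroup.mem_comap.1 hx
    obtain ⟨z, rfl⟩ := hs y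
    have h2 : (QuotientGroup.mk (z ^ 2) : A ⧸ H) = QuotientGroup.mk x := hy
    rw [QuotientGroup.eq] at h2
    have e : x = z ^ 2 * ((z ^ 2)⁻¹ * x) := by group
    rw [e]
    exact Subgroup.mul_mem_sup ⟨z, rfl⟩ h2
  · intro hx
    obtain ⟨y, ⟨z, hz⟩, h, hh, rfl⟩ := Subgroup.mem_sup.1 hx
    refine Subgroup.mem_comap.2 ⟨(z : A ⧸ H), ?_⟩
    have hz' : z ^ 2 = y := hz
    show (QuotientGroup.mk (z ^ 2) : A ⧸ H) = QuotientGroup.mk (y * h)
    rw [QuotientGroup.eq, hz']
    simpa using hh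

/-- The elements of order two of `A / ⟨S⟩` and of `A`. -/
theorem two_quot [Finite A] (S : Set A) (s : ℕ) (hS : S.ncard ≤ s) :
    Nat.card {g : A ⧸ Subgroup.closure S // g ^ 2 = 1} ≤ Nat.card {g : A // g ^ 2 = 1} ∧
    Nat.card {g : A // g ^ 2 = 1} ≤
      2 ^ s * Nat.card {g : A ⧸ Subgroup.closure S // g ^ 2 = 1} := by
  classical
  have hfin : S.Finite := Set.toFinite S
  rw [card_quot, card_two_eq (A := A)]
  constructor
  · refine Nat.le_of_dvd ?_ (Subgroup.index_dvd_of_le le_sup_left)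
    exact Nat.pos_of_ne_zero Subgroup.index_ne_zero_of_finite
  · have h1 := index_closure hfin.toFinset (powMonoidHom 2 : A →* A).range (fun x => ⟨x, rfl⟩)
    rw [Set.Finite.coe_toFinset] at h1
    refine h1.trans (Nat.mul_le_mul_right _ (Nat.pow_le_pow_right (by norm_num) ?_))
    rwa [← Set.ncard_eq_toFinset_card]

end

end Pool.Agent.N958.TR2
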