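import Pool.Agent.N958.TR2.Tow

set_option autoImplicit false
set_option linter.all false

/-! # Bounded decomposition in the layers of the cyclotomic `ℤ_p`-extension of `F ⊂ ℂ` -/

open NumberField IsDedekindDomain

namespace Pool.Agent.N958.TR2

/-- the field generated by the roots of unity of order `p ^ k` -/
noncomputable abbrev cyk (p k : ℕ) : IntermediateField ℚ ℂ := IntermediateField.adjoin ℚ {z : ℂ | z ^ (p ^ k) = 1}

theorem cyk_cyc {p : ℕ} (hp : p.Prime) (k : ℕ) : IsCyclotomicExtension {p ^ k} ℚ (cyk p k) := by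
  haveI : NeZero (p ^ k) := ⟨(pow_pos hp.pos k).ne'⟩
  have h1 := IntermediateField.isCyclotomicExtension_adjoin_of_exists_isPrimitiveRoot {p ^ k} ℚ
    ℂ (by
      rintro n hn hn0
      exact ⟨_, Complex.isPrimitiveRoot_exp n hn0⟩)
  have h2 : {b : ℂ | ∃ n ∈ ({p ^ k} : Set ℕ), n ≠ 0 ∧ b ^ n = 1} = {z : ℂ | z ^ (p ^ k) = 1} := by
    ext z
    constructor
    · rintro ⟨n, hn, -, h⟩
      rw [Set.mem_singleton_iff] at hn
      rw [hn] at h
      exact h
    · intro h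
      exact ⟨p ^ k, rfl, (pow_pos hp.pos k).ne', h⟩
  rw [h2] at h1
  exact h1

/-- The number of the primes over `l` in the layers is at most `[F : ℚ]` times a constant. -/
theorem tower {p l : ℕ} (hp : p.Prime) (hl : l.Prime) :
    ∃ t : ℕ, ∀ (F : IntermediateField ℚ ℂ), FiniteDimensional ℚ F → ∀ (k : ℕ)
      (E : IntermediateField ℚ ℂ), E ≤ cyk p k → ∀ [NumberField ↥(F ⊔ E)],
      Nat.card (above ↥(F ⊔ E) l) ≤ Module.finrank ℚ F * t := by
  obtain ⟨t, ht⟩ := above_cyc hp hl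
  refine ⟨t, fun F hF k E hE _ => ?_⟩
  haveI : NeZero (p ^ k) := ⟨(pow_pos hp.pos k).ne'⟩
  haveI := cyk_cyc hp k
  haveI : NumberField (cyk p k) := IsCyclotomicExtension.numberField {p ^ k} ℚ (cyk p k)
  haveI : FiniteDimensional ℚ ↥(F ⊔ cyk p k) := IntermediateField.finiteDimensional_sup F (cyk p k)
  haveI : NumberField ↥(F ⊔ cyk p k) := ⟨⟩
  letI a1 : Algebra ↥(F ⊔ E) ↥(F ⊔ cyk p k) :=
    (IntermediateField.inclusion (sup_le_sup_left hE F)).toRingHom.toAlgebra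
  letI a2 : Algebra ↥(cyk p k) ↥(F ⊔ cyk p k) :=
    (IntermediateField.inclusion (le_sup_right : cyk p k ≤ F ⊔ cyk p k)).toRingHom.toAlgebra
  haveI : IsScalarTower ℚ ↥(cyk p k) ↥(F ⊔ cyk p k) := IsScalarTower.of_algebraMap_eq' (by
    exact Subsingleton.elim _ _)
  have hl0 : (l : ℤ) ≠ 0 := by exact_mod_cast hl.ne_zero
  have h1 := card_up ↥(F ⊔ E) ↥(F ⊔ cyk p k) hl0
  have h2 := card_down ↥(cyk p k) ↥(F ⊔ cyk p k) hl0
  have h3 := ht k (cyk p k)
  have h4 := Module.finrank_mul_finrank ℚ ↥(cyk p k) ↥(F ⊔ cyk p k)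
  have h5 := IntermediateField.finrank_sup_le F (cyk p k)
  have h6 : 0 < Module.finrank ℚ (cyk p k) := Module.finrank_pos
  rw [← h4, mul_comm] at h5
  have h7 : Module.finrank ↥(cyk p k) ↥(F ⊔ cyk p k) ≤ Module.finrank ℚ F :=
    Nat.le_of_mul_le_mul_right h5 h6
  calc _ ≤ _ := h1
    _ ≤ _ := h2
    _ ≤ _ := Nat.mul_le_mul h7 h3

/-- the number of the primes over a nonzero rational integer in the layers -/
theorem tower_int {p : ℕ} (hp : p.Prime) {x : ℤ} (hx : x ≠ 0) :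
    ∃ t : ℕ, ∀ (F : IntermediateField ℚ ℂ), FiniteDimensional ℚ F → ∀ (k : ℕ)
      (E : IntermediateField ℚ ℂ), E ≤ cyk p k → ∀ [NumberField ↥(F ⊔ E)],
      Nat.card (above ↥(F ⊔ E) x) ≤ Module.finrank ℚ F * t := by
  have h : ∀ l : ℕ, ∃ t : ℕ, l.Prime → ∀ (F : IntermediateField ℚ ℂ), FiniteDimensional ℚ F →
      ∀ (k : ℕ) (E : IntermediateField ℚ ℂ), E ≤ cyk p k →
      ∀ [NumberField ↥(F ⊔ E)], Nat.card (above ↥(F ⊔ E) l) ≤ Module.finrank ℚ F * t := by
    intro l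
    by_cases hl : l.Prime
    · obtain ⟨T, hT⟩ := tower hp hl
      exact ⟨T, fun _ => hT⟩
    · exact ⟨0, fun h => absurd h hl⟩
  choose T hT using h
  refine ⟨∑ l ∈ x.natAbs.primeFactors, T l, fun F hF k E hE _ => ?_⟩
  rw [Finset.mul_sum]
  exact above_le _ hx (fun l => Module.finrank ℚ F * T l) fun l hl => hT l hl F hF k E hE

end Pool.Agent.N958.TR2
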